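import Mathlib
import Pool.Agent.Y80.TC.TriClass

set_option autoImplicit false

/-!
# Simple triple systems satisfying (I1), (I2), (I3) over algebraically closed fields

The classification of the starting file over an arbitrary algebraically closed field of
characteristic zero, and a consequence: in simple systems the identities (I1), (I2), (I3) are
equivalent to the stronger (associative) identities.
-/

namespace Pool.Agent.Results.MP_17450a_al.AlgClosedFields

universe u v w

/-! ## Statement -/

/-- `B` is trilinear over the field `K`, so that `(W, B)` is a triple system. -/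
structure IsTrilinear (K : Type w) [Field K] {W : Type u} [AddCommGroup W] [Module K W]
    (B : W → W → W → W) : Prop where
  add₁ : ∀ x x' y z, B (x + x') y z = B x y z + B x' y z
  add₂ : ∀ x y y' z, B x (y + y') z = B x y z + B x y' z
  add₃ : ∀ x y z z', B x y (z + z') = B x y z + B x y z'
  smul₁ : ∀ (c : K) x y z, B (c • x) y z = c • B x y z
  smul₂ : ∀ (c : K) x y z, B x (c • y) z = c • B x y z
  smul₃ : ∀ (c : K) x y z, B x y (c • z) = c • B x y z

/-- The identities (I1), (I2), (I3). -/
structure Identities {W : Type u} (B : W → W → W → W) : Prop where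
  i1 : ∀ x y v u, B x y (B x v u) = B x (B y x v) u
  i2 : ∀ x y z v, B x (B y z v) z = B (B x y z) v z
  i3 : ∀ x y z v, B x y (B z y v) = B (B x y z) y v

/-- The stronger identities. -/
def StrongIdentities {W : Type u} (B : W → W → W → W) : Prop :=
  ∀ x y z s t, B x y (B z s t) = B x (B y z s) t ∧ B x (B y z s) t = B (B x y z) s t

/-- Ideals of a triple system. -/
def IsTripleIdeal {K : Type w} [Field K] {W : Type u} [AddCommGroup W] [Module K W]
    (B : W → W → W → W) (I : Submodule K W) : Prop :=
  ∀ x ∈ I, ∀ y z : W, B x y z ∈ I ∧ B y x z ∈ I ∧ B y z x ∈ I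

/-- Simple triple systems: the product is not identically zero and the only ideals are `0`
and `W`. -/
def IsSimpleTriple (K : Type w) [Field K] {W : Type u} [AddCommGroup W] [Module K W]
    (B : W → W → W → W) : Prop :=
  (∃ x y z : W, B x y z ≠ 0) ∧ ∀ I : Submodule K W, IsTripleIdeal B I → I = ⊥ ∨ I = ⊤

/-- Isomorphism of triple systems. -/
def TripleIso (K : Type w) [Field K] {W : Type u} {W' : Type v} [AddCommGroup W] [Module K W]
    [AddCommGroup W'] [Module K W'] (B : W → W → W → W) (B' : W' → W' → W' → W') : Prop :=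
  ∃ φ : W ≃ₗ[K] W', ∀ x y z : W, φ (B x y z) = B' (φ x) (φ y) (φ z)

/-- The product `X Y Z` on `n × n` matrices. -/
def matTriple (K : Type w) [Field K] (n : ℕ) (X Y Z : Matrix (Fin n) (Fin n) K) :
    Matrix (Fin n) (Fin n) K :=
  X * Y * Z

/-- The space of pairs of a `p × q` matrix and a `q × p` matrix. -/
abbrev PairSpace (K : Type w) (p q : ℕ) : Type w :=
  Matrix (Fin p) (Fin q) K × Matrix (Fin q) (Fin p) K

/-- The product `((a, a'), (b, b'), (c, c')) ↦ (a b' c, a' b c')` on pairs of matrices. -/
def pairTriple (K : Type w) [Field K] (p q : ℕ) (X Y Z : PairSpace K p q) : PairSpace K p q :=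
  (X.1 * Y.2 * Z.1, X.2 * Y.1 * Z.2)

/-- The product `X Yᵀ Z` on `r × s` matrices. -/
def trTriple (K : Type w) [Field K] (r s : ℕ) (X Y Z : Matrix (Fin r) (Fin s) K) :
    Matrix (Fin r) (Fin s) K :=
  X * Y.transpose * Z

/-! ## Sanity checks: the models are triple systems -/

theorem mat_trilinear (K : Type w) [Field K] (n : ℕ) : IsTrilinear K (matTriple K n) := by
  constructor <;> intros <;> simp [matTriple, mul_add, add_mul]

theorem pair_trilinear (K : Type w) [Field K] (p q : ℕ) : IsTrilinear K (pairTriple K p q) := by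
  constructor <;> intros <;> simp [pairTriple, Matrix.mul_add, Matrix.add_mul]

/-! ## Proof -/

section

variable {K : Type w} [Field K]

/-- The bundled trilinear map. -/
def bundle {W : Type u} [AddCommGroup W] [Module K W] (B : W → W → W → W)
    (h : IsTrilinear K B) : W →ₗ[K] W →ₗ[K] W →ₗ[K] W where
  toFun x :=
    { toFun := fun y =>
        { toFun := fun z => B x y z
          map_add' := fun z z' => h.add₃ x y z z'
          map_smul' := fun c z => h.smul₃ c x y z }
      map_add' := fun y y' => LinearMap.ext fun z => h.add₂ x y y' z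
      map_smul' := fun c y => LinearMap.ext fun z => h.smul₂ c x y z }
  map_add' := fun x x' => LinearMap.ext fun y => LinearMap.ext fun z => h.add₁ x x' y z
  map_smul' := fun c x => LinearMap.ext fun y => LinearMap.ext fun z => h.smul₁ c x y z

lemma bundle_simple {W : Type u} [AddCommGroup W] [Module K W] (B : W → W → W → W)
    (h : IsTrilinear K B) :
    Pool.Agent.Y80.TC.IsSimpleTriple (bundle B h) ↔ IsSimpleTriple K B := by
  have e : bundle B h ≠ 0 ↔ ∃ x y z : W, B x y z ≠ 0 := by
    constructor
    · intro hne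
      by_contra hh
      push Not at hh
      exact hne (LinearMap.ext fun x => LinearMap.ext fun y => LinearMap.ext fun z => hh x y z)
    · rintro ⟨x, y, z, hne⟩ h0
      apply hne
      have := congrArg (fun f => f x y z) h0
      exact this
  exact and_congr e Iff.rfl

lemma strong_mat (n : ℕ) : StrongIdentities (matTriple K n) := by
  intro x y z s t
  simp only [matTriple, mul_assoc, and_self]

lemma strong_pair (p q : ℕ) : StrongIdentities (pairTriple K p q) := by
  intro x y z s t
  simp only [pairTriple, Matrix.mul_assoc, and_self]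

lemma strong_iso {W : Type u} {W' : Type v} [AddCommGroup W] [Module K W]
    [AddCommGroup W'] [Module K W'] {B : W → W → W → W} {B' : W' → W' → W' → W'}
    (h : TripleIso K B B') (hs : StrongIdentities B') : StrongIdentities B := by
  obtain ⟨φ, hφ⟩ := h
  intro x y z s t
  obtain ⟨h1, h2⟩ := hs (φ x) (φ y) (φ z) (φ s) (φ t)
  constructor
  · apply φ.injective
    rw [hφ, hφ, hφ, hφ, h1]
  · apply φ.injective
    rw [hφ, hφ, hφ, hφ, h2]

end

/-- The classification of the simple triple systems satisfying (I1), (I2), (I3) over an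
algebraically closed field of characteristic zero: (1) they are, up to isomorphism, the systems
`XYZ` on `n × n` matrices (`n ≥ 1`) and `(a b' c, a' b c')` on pairs of a `p × q` and a `q × p`
matrix (`1 ≤ p ≤ q`); (2), (3), (4) these are pairwise not isomorphic; (5) a simple triple system
satisfies (I1), (I2), (I3) if and only if it satisfies the stronger identities; (6) the product
`X Yᵀ Z` on `r × s` matrices satisfies (I1), (I2), (I3) only for `r = s = 1`. -/
theorem result (K : Type w) [Field K] [IsAlgClosed K] [CharZero K] :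
    (∀ (W : Type u) [AddCommGroup W] [Module K W] [FiniteDimensional K W]
      (B : W → W → W → W), IsTrilinear K B →
      ((IsSimpleTriple K B ∧ Identities B) ↔
        ((∃ n : ℕ, 1 ≤ n ∧ TripleIso K B (matTriple K n)) ∨
         (∃ p q : ℕ, 1 ≤ p ∧ p ≤ q ∧ TripleIso K B (pairTriple K p q))))) ∧
    (∀ n m : ℕ, TripleIso K (matTriple K n) (matTriple K m) → n = m) ∧
    (∀ p q p' q' : ℕ, 1 ≤ p → p ≤ q → 1 ≤ p' → p' ≤ q' →
      TripleIso K (pairTriple K p q) (pairTriple K p' q') → p = p' ∧ q = q') ∧
    (∀ n p q : ℕ, 1 ≤ p → p ≤ q → ¬ TripleIso K (matTriple K n) (pairTriple K p q)) ∧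
    (∀ (W : Type u) [AddCommGroup W] [Module K W] [FiniteDimensional K W]
      (B : W → W → W → W), IsTrilinear K B → IsSimpleTriple K B →
        (Identities B ↔ StrongIdentities B)) ∧
    (∀ r s : ℕ, 1 ≤ r → 1 ≤ s → Identities (trTriple K r s) → r = 1 ∧ s = 1) := by
  have key := Pool.Agent.Y80.TC.classification.{u} (𝕂 := K)
  have h1 : ∀ (W : Type u) [AddCommGroup W] [Module K W] [FiniteDimensional K W]
      (B : W → W → W → W), IsTrilinear K B →
      ((IsSimpleTriple K B ∧ Identities B) ↔
        ((∃ n : ℕ, 1 ≤ n ∧ TripleIso K B (matTriple K n)) ∨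
         (∃ p q : ℕ, 1 ≤ p ∧ p ≤ q ∧ TripleIso K B (pairTriple K p q)))) := by
    intro W _ _ _ B hB
    have kB := key.1 W (bundle B hB)
    rw [bundle_simple] at kB
    constructor
    · rintro ⟨hs, h⟩
      exact kB.mp ⟨hs, ⟨h.i1, h.i2, h.i3⟩⟩
    · intro h
      obtain ⟨hs, h2⟩ := kB.mpr h
      exact ⟨hs, ⟨h2.i1, h2.i2, h2.i3⟩⟩
  refine ⟨h1, key.2.1, key.2.2.1, key.2.2.2.1, ?_, ?_⟩
  · intro W _ _ _ B hB hs
    constructor
    · intro h
      rcases (h1 W B hB).1 ⟨hs, h⟩ with ⟨n, -, hi⟩ | ⟨p, q, -, -, hi⟩
      · exact strong_iso hi (strong_mat n)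
      · exact strong_iso hi (strong_pair p q)
    · intro h
      refine ⟨fun x y v u => (h x y x v u).1, fun x y z v => ?_, fun x y z v => ?_⟩
      · exact (h x y z v z).2
      · exact ((h x y z y v).1).trans (h x y z y v).2
  · intro r s hr hs h
    exact key.2.2.2.2 r s hr hs ⟨h.i1, h.i2, h.i3⟩

end Pool.Agent.Results.MP_17450a_al.AlgClosedFields
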